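import Pool.Agent.MP_39eeea_nt.H96.FIN

/-! Two linear forms: residue class, parities of the numbers of prime factors and large prime
factors are jointly independent in natural density. -/

open Filter Finset

open Classical in
theorem Pool.Agent.Results.MP_39eeea_nt.ParityModel.result (a₁ b₁ a₂ b₂ q a u v : ℕ) (α β : ℝ)
    (c d : Bool) (h1 : 1 ≤ a₁) (h2 : 1 ≤ a₂) (hd : a₁ * b₂ ≠ a₂ * b₁) (hq : 1 ≤ q)
    (hα : 1 / 2 < α ∧ α < 1) (hβ : 1 / 2 < β ∧ β < 1) :
    Tendsto (fun X : ℕ => (((Icc 1 X).filter fun n => n ≡ a [MOD q] ∧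
      (ArithmeticFunction.cardFactors (a₁ * n + b₁) ≡ u [MOD 2] ∧
        ((∃ p : ℕ, p.Prime ∧ p ∣ a₁ * n + b₁ ∧ (X : ℝ) ^ α < p) ↔ c = true)) ∧
      (ArithmeticFunction.cardFactors (a₂ * n + b₂) ≡ v [MOD 2] ∧
        ((∃ p : ℕ, p.Prime ∧ p ∣ a₂ * n + b₂ ∧ (X : ℝ) ^ β < p) ↔ d = true))).card : ℝ) / X)
      atTop (nhds ((if c then Real.log (1 / α) else 1 - Real.log (1 / α)) *
        (if d then Real.log (1 / β) else 1 - Real.log (1 / β)) / (4 * q))) := by
  rcases lt_or_gt_of_ne hd with h | h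
  · have := Pool.Agent.MP_39eeea_nt.H96.FIN.ordered (a := a) v u d c hq h2 h1 h hβ.1 hβ.2 hα.1 hα.2
    rw [mul_comm (if c then _ else _)]
    refine this.congr fun X => ?_
    congr 2
    exact congrArg _ (filter_congr fun n _ => and_congr_right fun _ => and_comm)
  · exact Pool.Agent.MP_39eeea_nt.H96.FIN.ordered u v c d hq h1 h2 h hα.1 hα.2 hβ.1 hβ.2
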